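import Mathlib

/-!
# Fields of characteristic different from 2 and 3

The modules in `Pool.Agent.Helper40.CX` carry over to arbitrary characteristic different from `2` and `3`
the theory of zero-cycles on K3 surfaces with a genus one fibration, written in characteristic zero by
helper26 (`Helper26.VC`), helper83 (`Helper83.VF`, `EW`, `KV`, `QF`), helper51 (`Helper51.EW`, `VK`), helper94
(`Helper94.EW`, `VQ`), helper70 (`Helper70.VF`, `VP`), helper17 (`Helper17.FF`), helper71 and helper9.
The module `H26VC.Defs` is the port of `Helper26.VC.Defs`, and so on. The main changes: the functions on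
the points of a variety which vanish on the cycles rationally equivalent to zero have complex values, and
Galois covers of the line are used only for separable functions (`H26VC.Sep`, `H26VC.MainA`).
-/

namespace CX

/-- The characteristic is neither `2` nor `3`. -/
class Good (K : Type*) [Field K] : Prop where
  two : (2 : K) ≠ 0
  three : (3 : K) ≠ 0

instance (priority := 100) Good.of_charZero (K : Type*) [Field K] [CharZero K] : Good K :=
  ⟨two_ne_zero, three_ne_zero⟩

theorem Good.of_injective {k K : Type*} [Field k] [Field K] [Good k] {f : k →+* K}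
    (_ : Function.Injective f) : Good K :=
  ⟨by
    have h := (map_ne_zero f).mpr (Good.two (K := k))
    rwa [map_ofNat] at h, by
    have h := (map_ne_zero f).mpr (Good.three (K := k))
    rwa [map_ofNat] at h⟩

theorem Good.ext (k : Type*) {K : Type*} [Field k] [Field K] [Good k] [Algebra k K] : Good K :=
  Good.of_injective (algebraMap k K).injective

theorem Good.ne {K : Type*} [Field K] [Good K] (a b : ℕ) : ((2 ^ a * 3 ^ b : ℕ) : K) ≠ 0 := by
  push_cast
  exact mul_ne_zero (pow_ne_zero _ Good.two) (pow_ne_zero _ Good.three)

theorem Good.ne' {K : Type*} [Field K] [Good K] {n : ℕ} (a b : ℕ) (h : n = 2 ^ a * 3 ^ b) : (n : K) ≠ 0 := by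
  subst h
  exact Good.ne a b

instance Good.neZero2 (K : Type*) [Field K] [Good K] : NeZero (2 : K) := ⟨Good.two⟩
instance Good.neZero3 (K : Type*) [Field K] [Good K] : NeZero (3 : K) := ⟨Good.three⟩
instance Good.neZero4 (K : Type*) [Field K] [Good K] : NeZero (4 : K) := ⟨by
  have := Good.ne' (K := K) (n := 4) 2 0 rfl
  exact_mod_cast this⟩
instance Good.neZero6 (K : Type*) [Field K] [Good K] : NeZero (6 : K) := ⟨by
  have := Good.ne' (K := K) (n := 6) 1 1 rfl
  exact_mod_cast this⟩

end CX

namespace CX.VC
end CX.VC
namespace CX.VQ
end CX.VQ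
namespace CX.VP
end CX.VP
namespace CX.VF
end CX.VF
namespace CX.VH
end CX.VH
namespace CX.BQ
end CX.BQ
namespace CX.CY
end CX.CY
namespace CX.Pool.Agent.Helper51.EW
end CX.Pool.Agent.Helper51.EW
namespace CX.Pool.Agent.Helper83.EW
end CX.Pool.Agent.Helper83.EW
namespace CX.Pool.Agent.Helper94.EW
end CX.Pool.Agent.Helper94.EW
namespace CX.Pool.Agent.Helper70.VF
end CX.Pool.Agent.Helper70.VF
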