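import Mathlib
import Pool.Agent.Helper40.CX.Good

/-!
# The numbers `2 ^ a * 3 ^ b` are not zero
-/

namespace CX

variable {K : Type*} [Field K] [Good K]

@[simp] theorem Good.n2 : (2 : K) ≠ 0 := by exact_mod_cast Good.ne' (K := K) (n := 2) 1 0 rfl
@[simp] theorem Good.n3 : (3 : K) ≠ 0 := by exact_mod_cast Good.ne' (K := K) (n := 3) 0 1 rfl
@[simp] theorem Good.n4 : (4 : K) ≠ 0 := by exact_mod_cast Good.ne' (K := K) (n := 4) 2 0 rfl
@[simp] theorem Good.n6 : (6 : K) ≠ 0 := by exact_mod_cast Good.ne' (K := K) (n := 6) 1 1 rfl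
@[simp] theorem Good.n8 : (8 : K) ≠ 0 := by exact_mod_cast Good.ne' (K := K) (n := 8) 3 0 rfl
@[simp] theorem Good.n9 : (9 : K) ≠ 0 := by exact_mod_cast Good.ne' (K := K) (n := 9) 0 2 rfl
@[simp] theorem Good.n12 : (12 : K) ≠ 0 := by exact_mod_cast Good.ne' (K := K) (n := 12) 2 1 rfl
@[simp] theorem Good.n16 : (16 : K) ≠ 0 := by exact_mod_cast Good.ne' (K := K) (n := 16) 4 0 rfl
@[simp] theorem Good.n18 : (18 : K) ≠ 0 := by exact_mod_cast Good.ne' (K := K) (n := 18) 1 2 rfl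
@[simp] theorem Good.n24 : (24 : K) ≠ 0 := by exact_mod_cast Good.ne' (K := K) (n := 24) 3 1 rfl
@[simp] theorem Good.n27 : (27 : K) ≠ 0 := by exact_mod_cast Good.ne' (K := K) (n := 27) 0 3 rfl
@[simp] theorem Good.n32 : (32 : K) ≠ 0 := by exact_mod_cast Good.ne' (K := K) (n := 32) 5 0 rfl
@[simp] theorem Good.n36 : (36 : K) ≠ 0 := by exact_mod_cast Good.ne' (K := K) (n := 36) 2 2 rfl
@[simp] theorem Good.n48 : (48 : K) ≠ 0 := by exact_mod_cast Good.ne' (K := K) (n := 48) 4 1 rfl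
@[simp] theorem Good.n54 : (54 : K) ≠ 0 := by exact_mod_cast Good.ne' (K := K) (n := 54) 1 3 rfl
@[simp] theorem Good.n64 : (64 : K) ≠ 0 := by exact_mod_cast Good.ne' (K := K) (n := 64) 6 0 rfl
@[simp] theorem Good.n72 : (72 : K) ≠ 0 := by exact_mod_cast Good.ne' (K := K) (n := 72) 3 2 rfl
@[simp] theorem Good.n81 : (81 : K) ≠ 0 := by exact_mod_cast Good.ne' (K := K) (n := 81) 0 4 rfl
@[simp] theorem Good.n96 : (96 : K) ≠ 0 := by exact_mod_cast Good.ne' (K := K) (n := 96) 5 1 rfl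
@[simp] theorem Good.n108 : (108 : K) ≠ 0 := by exact_mod_cast Good.ne' (K := K) (n := 108) 2 3 rfl
@[simp] theorem Good.n128 : (128 : K) ≠ 0 := by exact_mod_cast Good.ne' (K := K) (n := 128) 7 0 rfl
@[simp] theorem Good.n144 : (144 : K) ≠ 0 := by exact_mod_cast Good.ne' (K := K) (n := 144) 4 2 rfl
@[simp] theorem Good.n162 : (162 : K) ≠ 0 := by exact_mod_cast Good.ne' (K := K) (n := 162) 1 4 rfl
@[simp] theorem Good.n192 : (192 : K) ≠ 0 := by exact_mod_cast Good.ne' (K := K) (n := 192) 6 1 rfl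
@[simp] theorem Good.n216 : (216 : K) ≠ 0 := by exact_mod_cast Good.ne' (K := K) (n := 216) 3 3 rfl
@[simp] theorem Good.n243 : (243 : K) ≠ 0 := by exact_mod_cast Good.ne' (K := K) (n := 243) 0 5 rfl
@[simp] theorem Good.n256 : (256 : K) ≠ 0 := by exact_mod_cast Good.ne' (K := K) (n := 256) 8 0 rfl
@[simp] theorem Good.n288 : (288 : K) ≠ 0 := by exact_mod_cast Good.ne' (K := K) (n := 288) 5 2 rfl
@[simp] theorem Good.n324 : (324 : K) ≠ 0 := by exact_mod_cast Good.ne' (K := K) (n := 324) 2 4 rfl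
@[simp] theorem Good.n384 : (384 : K) ≠ 0 := by exact_mod_cast Good.ne' (K := K) (n := 384) 7 1 rfl
@[simp] theorem Good.n432 : (432 : K) ≠ 0 := by exact_mod_cast Good.ne' (K := K) (n := 432) 4 3 rfl
@[simp] theorem Good.n486 : (486 : K) ≠ 0 := by exact_mod_cast Good.ne' (K := K) (n := 486) 1 5 rfl
@[simp] theorem Good.n512 : (512 : K) ≠ 0 := by exact_mod_cast Good.ne' (K := K) (n := 512) 9 0 rfl
@[simp] theorem Good.n576 : (576 : K) ≠ 0 := by exact_mod_cast Good.ne' (K := K) (n := 576) 6 2 rfl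
@[simp] theorem Good.n648 : (648 : K) ≠ 0 := by exact_mod_cast Good.ne' (K := K) (n := 648) 3 4 rfl
@[simp] theorem Good.n729 : (729 : K) ≠ 0 := by exact_mod_cast Good.ne' (K := K) (n := 729) 0 6 rfl
@[simp] theorem Good.n768 : (768 : K) ≠ 0 := by exact_mod_cast Good.ne' (K := K) (n := 768) 8 1 rfl
@[simp] theorem Good.n864 : (864 : K) ≠ 0 := by exact_mod_cast Good.ne' (K := K) (n := 864) 5 3 rfl
@[simp] theorem Good.n972 : (972 : K) ≠ 0 := by exact_mod_cast Good.ne' (K := K) (n := 972) 2 5 rfl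
@[simp] theorem Good.n1024 : (1024 : K) ≠ 0 := by exact_mod_cast Good.ne' (K := K) (n := 1024) 10 0 rfl
@[simp] theorem Good.n1152 : (1152 : K) ≠ 0 := by exact_mod_cast Good.ne' (K := K) (n := 1152) 7 2 rfl
@[simp] theorem Good.n1296 : (1296 : K) ≠ 0 := by exact_mod_cast Good.ne' (K := K) (n := 1296) 4 4 rfl
@[simp] theorem Good.n1458 : (1458 : K) ≠ 0 := by exact_mod_cast Good.ne' (K := K) (n := 1458) 1 6 rfl
@[simp] theorem Good.n1536 : (1536 : K) ≠ 0 := by exact_mod_cast Good.ne' (K := K) (n := 1536) 9 1 rfl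
@[simp] theorem Good.n1728 : (1728 : K) ≠ 0 := by exact_mod_cast Good.ne' (K := K) (n := 1728) 6 3 rfl
@[simp] theorem Good.n1944 : (1944 : K) ≠ 0 := by exact_mod_cast Good.ne' (K := K) (n := 1944) 3 5 rfl
@[simp] theorem Good.n2048 : (2048 : K) ≠ 0 := by exact_mod_cast Good.ne' (K := K) (n := 2048) 11 0 rfl
@[simp] theorem Good.n2187 : (2187 : K) ≠ 0 := by exact_mod_cast Good.ne' (K := K) (n := 2187) 0 7 rfl
@[simp] theorem Good.n2304 : (2304 : K) ≠ 0 := by exact_mod_cast Good.ne' (K := K) (n := 2304) 8 2 rfl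
@[simp] theorem Good.n2592 : (2592 : K) ≠ 0 := by exact_mod_cast Good.ne' (K := K) (n := 2592) 5 4 rfl
@[simp] theorem Good.n2916 : (2916 : K) ≠ 0 := by exact_mod_cast Good.ne' (K := K) (n := 2916) 2 6 rfl
@[simp] theorem Good.n3072 : (3072 : K) ≠ 0 := by exact_mod_cast Good.ne' (K := K) (n := 3072) 10 1 rfl
@[simp] theorem Good.n3456 : (3456 : K) ≠ 0 := by exact_mod_cast Good.ne' (K := K) (n := 3456) 7 3 rfl
@[simp] theorem Good.n3888 : (3888 : K) ≠ 0 := by exact_mod_cast Good.ne' (K := K) (n := 3888) 4 5 rfl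
@[simp] theorem Good.n4096 : (4096 : K) ≠ 0 := by exact_mod_cast Good.ne' (K := K) (n := 4096) 12 0 rfl
@[simp] theorem Good.n4374 : (4374 : K) ≠ 0 := by exact_mod_cast Good.ne' (K := K) (n := 4374) 1 7 rfl
@[simp] theorem Good.n4608 : (4608 : K) ≠ 0 := by exact_mod_cast Good.ne' (K := K) (n := 4608) 9 2 rfl
@[simp] theorem Good.n5184 : (5184 : K) ≠ 0 := by exact_mod_cast Good.ne' (K := K) (n := 5184) 6 4 rfl
@[simp] theorem Good.n5832 : (5832 : K) ≠ 0 := by exact_mod_cast Good.ne' (K := K) (n := 5832) 3 6 rfl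
@[simp] theorem Good.n6144 : (6144 : K) ≠ 0 := by exact_mod_cast Good.ne' (K := K) (n := 6144) 11 1 rfl
@[simp] theorem Good.n6561 : (6561 : K) ≠ 0 := by exact_mod_cast Good.ne' (K := K) (n := 6561) 0 8 rfl
@[simp] theorem Good.n6912 : (6912 : K) ≠ 0 := by exact_mod_cast Good.ne' (K := K) (n := 6912) 8 3 rfl
@[simp] theorem Good.n7776 : (7776 : K) ≠ 0 := by exact_mod_cast Good.ne' (K := K) (n := 7776) 5 5 rfl
@[simp] theorem Good.n8192 : (8192 : K) ≠ 0 := by exact_mod_cast Good.ne' (K := K) (n := 8192) 13 0 rfl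
@[simp] theorem Good.n8748 : (8748 : K) ≠ 0 := by exact_mod_cast Good.ne' (K := K) (n := 8748) 2 7 rfl
@[simp] theorem Good.n9216 : (9216 : K) ≠ 0 := by exact_mod_cast Good.ne' (K := K) (n := 9216) 10 2 rfl
@[simp] theorem Good.n10368 : (10368 : K) ≠ 0 := by exact_mod_cast Good.ne' (K := K) (n := 10368) 7 4 rfl
@[simp] theorem Good.n11664 : (11664 : K) ≠ 0 := by exact_mod_cast Good.ne' (K := K) (n := 11664) 4 6 rfl
@[simp] theorem Good.n12288 : (12288 : K) ≠ 0 := by exact_mod_cast Good.ne' (K := K) (n := 12288) 12 1 rfl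
@[simp] theorem Good.n13122 : (13122 : K) ≠ 0 := by exact_mod_cast Good.ne' (K := K) (n := 13122) 1 8 rfl
@[simp] theorem Good.n13824 : (13824 : K) ≠ 0 := by exact_mod_cast Good.ne' (K := K) (n := 13824) 9 3 rfl
@[simp] theorem Good.n15552 : (15552 : K) ≠ 0 := by exact_mod_cast Good.ne' (K := K) (n := 15552) 6 5 rfl
@[simp] theorem Good.n16384 : (16384 : K) ≠ 0 := by exact_mod_cast Good.ne' (K := K) (n := 16384) 14 0 rfl
@[simp] theorem Good.n17496 : (17496 : K) ≠ 0 := by exact_mod_cast Good.ne' (K := K) (n := 17496) 3 7 rfl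
@[simp] theorem Good.n18432 : (18432 : K) ≠ 0 := by exact_mod_cast Good.ne' (K := K) (n := 18432) 11 2 rfl
@[simp] theorem Good.n19683 : (19683 : K) ≠ 0 := by exact_mod_cast Good.ne' (K := K) (n := 19683) 0 9 rfl
@[simp] theorem Good.n20736 : (20736 : K) ≠ 0 := by exact_mod_cast Good.ne' (K := K) (n := 20736) 8 4 rfl
@[simp] theorem Good.n23328 : (23328 : K) ≠ 0 := by exact_mod_cast Good.ne' (K := K) (n := 23328) 5 6 rfl
@[simp] theorem Good.n24576 : (24576 : K) ≠ 0 := by exact_mod_cast Good.ne' (K := K) (n := 24576) 13 1 rfl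
@[simp] theorem Good.n26244 : (26244 : K) ≠ 0 := by exact_mod_cast Good.ne' (K := K) (n := 26244) 2 8 rfl
@[simp] theorem Good.n27648 : (27648 : K) ≠ 0 := by exact_mod_cast Good.ne' (K := K) (n := 27648) 10 3 rfl
@[simp] theorem Good.n31104 : (31104 : K) ≠ 0 := by exact_mod_cast Good.ne' (K := K) (n := 31104) 7 5 rfl
@[simp] theorem Good.n34992 : (34992 : K) ≠ 0 := by exact_mod_cast Good.ne' (K := K) (n := 34992) 4 7 rfl
@[simp] theorem Good.n36864 : (36864 : K) ≠ 0 := by exact_mod_cast Good.ne' (K := K) (n := 36864) 12 2 rfl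
@[simp] theorem Good.n39366 : (39366 : K) ≠ 0 := by exact_mod_cast Good.ne' (K := K) (n := 39366) 1 9 rfl
@[simp] theorem Good.n41472 : (41472 : K) ≠ 0 := by exact_mod_cast Good.ne' (K := K) (n := 41472) 9 4 rfl
@[simp] theorem Good.n46656 : (46656 : K) ≠ 0 := by exact_mod_cast Good.ne' (K := K) (n := 46656) 6 6 rfl
@[simp] theorem Good.n49152 : (49152 : K) ≠ 0 := by exact_mod_cast Good.ne' (K := K) (n := 49152) 14 1 rfl

end CX
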