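import Mathlib
import Pool.Agent.Helper40.CX.Good

/-!
# A binomial coefficient which is not divisible by the characteristic
-/

set_option autoImplicit false

namespace CX

/-- For `m > 0` there is `j > 0`, prime to `6`, such that the binomial coefficient of `m` and `j` is not
zero in `k`: `j = 1` if `m` is not zero in `k`, otherwise the largest power of the characteristic
dividing `m`. -/
theorem exists_choose_ne {k : Type*} [Field k] [Good k] (m : ℕ) (hm : m ≠ 0) :
    ∃ j : ℕ, 0 < j ∧ Nat.Coprime j 6 ∧ ((m.choose j : ℕ) : k) ≠ 0 := by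
  obtain ⟨p, hp⟩ := CharP.exists k
  rcases CharP.char_is_prime_or_zero k p with hp' | rfl
  swap
  · have : CharZero k := CharP.charP_to_charZero k
    exact ⟨1, one_pos, by norm_num, by rw [Nat.choose_one_right]; exact_mod_cast hm⟩
  have hprime : Fact p.Prime := ⟨hp'⟩
  have h2 : p ≠ 2 := by
    rintro rfl
    exact Good.two (K := k) (by exact_mod_cast CharP.cast_eq_zero k 2)
  have h3 : p ≠ 3 := by
    rintro rfl
    exact Good.three (K := k) (by exact_mod_cast CharP.cast_eq_zero k 3)
  obtain ⟨a, m', hm', rfl⟩ := Nat.exists_eq_pow_mul_and_not_dvd hm p hp'.ne_one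
  refine ⟨p ^ a, pow_pos hp'.pos a, ?_, ?_⟩
  · have h4 : Nat.Coprime p 6 := by
      rw [Nat.Prime.coprime_iff_not_dvd hp']
      intro h
      have h5 : p ∣ 2 * 3 := h
      rcases (Nat.Prime.dvd_mul hp').mp h5 with h6 | h6
      · exact h2 ((Nat.prime_dvd_prime_iff_eq hp' Nat.prime_two).mp h6)
      · exact h3 ((Nat.prime_dvd_prime_iff_eq hp' Nat.prime_three).mp h6)
    exact Nat.Coprime.pow_left a h4
  · have h4 : (((p ^ a * m').choose (p ^ a) : ℕ) : k) = m' := by
      have h5 : ((Polynomial.X + 1 : Polynomial k) ^ (p ^ a * m')).coeff (p ^ a) =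
          (((p ^ a * m').choose (p ^ a) : ℕ) : k) := Polynomial.coeff_X_add_one_pow _ _ _
      rw [← h5, pow_mul, add_pow_char_pow, one_pow]
      have h6 : ((Polynomial.X ^ p ^ a + 1 : Polynomial k)) ^ m' =
          Polynomial.expand k (p ^ a) ((Polynomial.X + 1) ^ m') := by
        rw [map_pow, map_add, map_one, Polynomial.expand_X]
      rw [h6]
      have h7 := Polynomial.coeff_expand_mul (pow_pos hp'.pos a) ((Polynomial.X + 1 : Polynomial k) ^ m') 1
      rw [one_mul] at h7
      rw [h7, Polynomial.coeff_X_add_one_pow, Nat.choose_one_right]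
    rw [h4, Ne, CharP.cast_eq_zero_iff k p]
    exact hm'

end CX
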