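import Mathlib

/-!
# The alternating sum for two factors
-/

set_option autoImplicit false

namespace CX

theorem univ_perm_two : (Finset.univ : Finset (Equiv.Perm (Fin 2))) = {1, Equiv.swap 0 1} := by decide

theorem sum_perm_two {A B : Type*} [AddCommGroup A] (f : (Fin 2 → B) → A) (a b : B) :
    ∑ σ : Equiv.Perm (Fin 2), ((Equiv.Perm.sign σ : ℤˣ) : ℤ) • f (fun i => ![a, b] (σ i)) =
      f ![a, b] - f ![b, a] := by
  rw [univ_perm_two, Finset.sum_pair (by decide)]
  have h1 : (fun i => ![a, b] ((1 : Equiv.Perm (Fin 2)) i)) = ![a, b] := rfl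
  have h2 : (fun i => ![a, b] ((Equiv.swap 0 1 : Equiv.Perm (Fin 2)) i)) = ![b, a] := by
    funext i
    fin_cases i <;> simp
  rw [h1, h2, Equiv.Perm.sign_one, Equiv.Perm.sign_swap (by decide)]
  simp [sub_eq_add_neg]

end CX
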