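import Mathlib
import Pool.Agent.Helper40.CX.Good2

/-!
# Extensions of degree prime to the characteristic are separable
-/

namespace CX

open Polynomial

/-- A finite extension the degree of which divides `2 ^ a * 3 ^ b` is separable. -/
theorem isSep_of_finrank {R F : Type*} [Field R] [Good R] [Field F] [Algebra R F]
    [FiniteDimensional R F] {a b : ℕ} (h : Module.finrank R F ∣ 2 ^ a * 3 ^ b) :
    Algebra.IsSeparable R F := by
  refine ⟨fun x => ?_⟩
  have hx : IsIntegral R x := Algebra.IsIntegral.isIntegral x
  have hirr := minpoly.irreducible hx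
  have hd : (minpoly R x).natDegree ∣ 2 ^ a * 3 ^ b :=
    (minpoly.degree_dvd hx).trans h
  obtain ⟨c, hc⟩ := hd
  have hne : ((minpoly R x).natDegree : R) ≠ 0 := by
    intro h0
    have h1 := Good.ne (K := R) a b
    rw [hc, Nat.cast_mul, h0, zero_mul] at h1
    exact h1 rfl
  have hpos : 0 < (minpoly R x).natDegree := minpoly.natDegree_pos hx
  change (minpoly R x).Separable
  rw [separable_iff_derivative_ne_zero hirr]
  intro h0
  apply hne
  have h1 := congrArg (fun q : R[X] => q.coeff ((minpoly R x).natDegree - 1)) h0
  simp only [coeff_derivative, coeff_zero] at h1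
  rw [Nat.sub_add_cancel hpos] at h1
  have h2 : (minpoly R x).coeff (minpoly R x).natDegree = 1 := (minpoly.monic hx)
  rw [h2, one_mul] at h1
  have h3 : (((minpoly R x).natDegree - 1 : ℕ) : R) + 1 = ((minpoly R x).natDegree : R) := by
    conv_rhs => rw [← Nat.sub_add_cancel hpos]
    push_cast
    ring
  rw [← h3]
  exact h1

/-- `Module.finrank R F = 4`. -/
theorem isSep_four {R F : Type*} [Field R] [Good R] [Field F] [Algebra R F]
    (h : Module.finrank R F = 4) : Algebra.IsSeparable R F := by
  have : FiniteDimensional R F := FiniteDimensional.of_finrank_pos (by rw [h]; norm_num)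
  exact isSep_of_finrank (a := 2) (b := 0) (by rw [h]; norm_num)

/-- `Module.finrank R F = 2`. -/
theorem isSep_two {R F : Type*} [Field R] [Good R] [Field F] [Algebra R F]
    (h : Module.finrank R F = 2) : Algebra.IsSeparable R F := by
  have : FiniteDimensional R F := FiniteDimensional.of_finrank_pos (by rw [h]; norm_num)
  exact isSep_of_finrank (a := 1) (b := 0) (by rw [h]; norm_num)

end CX
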